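import Mathlib

set_option autoImplicit false

/-! Definitions for the outline problem of 3-polytopes. -/

namespace Pool.Agent.Y758.Shadow

open Set

/-- The points `f v` are the vertices of a 3-polytope (their convex hull has nonempty interior and
every `f v` is a vertex of it) and the edges of that polytope are exactly the segments between
`f u` and `f w` with `u`, `w` adjacent in `G`. -/
def Realizes {V : Type} (G : SimpleGraph V) (f : V → Fin 3 → ℝ) : Prop :=
  Function.Injective f ∧
  (interior (convexHull ℝ (range f))).Nonempty ∧
  (∀ w, f w ∈ Set.extremePoints ℝ (convexHull ℝ (range f))) ∧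
  (∀ u w, G.Adj u w ↔
    (u ≠ w ∧ IsExtreme ℝ (convexHull ℝ (range f)) (segment ℝ (f u) (f w))))

/-- Orthogonal projection of space onto the plane of the first two coordinates. -/
def proj (p : Fin 3 → ℝ) : Fin 2 → ℝ := ![p 0, p 1]

/-- `T` is the vertex set of a convex polygon with `n` vertices. -/
def ConvexPolygon (n : ℕ) (T : Finset (Fin 2 → ℝ)) : Prop :=
  T.card = n ∧ ∀ t ∈ T, t ∉ convexHull ℝ ((T : Set (Fin 2 → ℝ)) \ {t})

/-- The polytope spanned by `f` projects onto the polygon with vertex set `T`, and the part of it
above the boundary of the polygon is exactly the union of the edges of the circuit `c`. -/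
def Outline {V : Type} {G : SimpleGraph V} {v : V} (c : G.Walk v v) (T : Finset (Fin 2 → ℝ))
    (f : V → Fin 3 → ℝ) : Prop :=
  proj '' convexHull ℝ (range f) = convexHull ℝ (T : Set (Fin 2 → ℝ)) ∧
  proj ⁻¹' frontier (convexHull ℝ (T : Set (Fin 2 → ℝ))) ∩ convexHull ℝ (range f)
    = ⋃ d ∈ c.darts, segment ℝ (f d.fst) (f d.snd)

open scoped Classical in
/-- The vertex set of the affinely regular hexagon with centre `o` and vertices, in cyclic order,
`o + a, o + a + b, o + b, o - a, o - a - b, o - b`. -/
noncomputable def hexagon (o a b : Fin 2 → ℝ) : Finset (Fin 2 → ℝ) :=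
  {o + a, o + a + b, o + b, o - a, o - a - b, o - b}

end Pool.Agent.Y758.Shadow
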