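import Pool.Agent.Y758.Shadow.Defs

set_option autoImplicit false

namespace Pool.Agent.Y758.Shadow

open Set

/-- The six vertices, in cyclic order. -/
def hv (o a b : Fin 2 → ℝ) : Fin 6 → (Fin 2 → ℝ) :=
  ![o + a, o + a + b, o + b, o - a, o - a - b, o - b]

/-! ### The graph -/

/-- adjacency list -/
def adjb (u w : Fin 8) : Bool :=
  ((u, w) ∈ ([(0,1),(1,2),(2,3),(3,4),(4,5),(0,5),(0,2),(2,5),(3,5),(1,3),(0,3),(0,4),
    (0,6),(2,6),(5,6),(0,7),(1,7),(3,7)] : List (Fin 8 × Fin 8))) ||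
  ((w, u) ∈ ([(0,1),(1,2),(2,3),(3,4),(4,5),(0,5),(0,2),(2,5),(3,5),(1,3),(0,3),(0,4),
    (0,6),(2,6),(5,6),(0,7),(1,7),(3,7)] : List (Fin 8 × Fin 8)))

/-- the graph -/
def Gr : SimpleGraph (Fin 8) where
  Adj u w := adjb u w = true
  symm := ⟨by
    intro u w h
    revert u w
    decide⟩
  loopless := ⟨by
    intro u h
    revert u
    decide⟩

instance : DecidableRel Gr.Adj := fun u w => inferInstanceAs (Decidable (adjb u w = true))

/-- the circuit -/
def circ : Gr.Walk 0 0 :=
  .cons (show Gr.Adj 0 1 by decide) <| .cons (show Gr.Adj 1 2 by decide) <|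
  .cons (show Gr.Adj 2 3 by decide) <| .cons (show Gr.Adj 3 4 by decide) <|
  .cons (show Gr.Adj 4 5 by decide) <| .cons (show Gr.Adj 5 0 by decide) .nil

lemma circ_length : circ.length = 6 := by decide

lemma circ_isCycle : circ.IsCycle := by
  rw [SimpleGraph.Walk.isCycle_def]
  refine ⟨?_, ?_, ?_⟩
  · rw [SimpleGraph.Walk.isTrail_def]
    decide
  · intro h
    have := congrArg SimpleGraph.Walk.length h
    simp [circ] at this
  · decide

lemma circ_support (w : Fin 8) : w ∉ circ.support ↔ w = 6 ∨ w = 7 := by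
  revert w
  decide

lemma not_preconnected : ¬ (Gr.induce {w | w ∉ circ.support}).Preconnected := by
  intro h
  have h6 : (6 : Fin 8) ∉ circ.support := (circ_support 6).2 (Or.inl rfl)
  have h7 : (7 : Fin 8) ∉ circ.support := (circ_support 7).2 (Or.inr rfl)
  obtain ⟨p⟩ := h ⟨6, h6⟩ ⟨7, h7⟩
  cases p with
  | cons hadj q =>
    rename_i x
    obtain ⟨x, hx⟩ := x
    have hx' : x = 6 ∨ x = 7 := (circ_support x).1 hx
    have : Gr.Adj 6 x := hadj
    rcases hx' with rfl | rfl
    · exact absurd this (by decide)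
    · exact absurd this (by decide)


/-! ### A realization of the graph -/

/-- coordinates -/
def gg : Fin 8 → Fin 3 → ℝ :=
  ![![0, 0, 0], ![12, 12, -2], ![36, 0, 0], ![0, 36, 0], ![-2, 12, 12], ![0, 0, 36],
    ![12, -2, 12], ![4, 16, -1]]

/-- a linear functional -/
def lin (n : Fin 3 → ℝ) (p : Fin 3 → ℝ) : ℝ := n 0 * p 0 + n 1 * p 1 + n 2 * p 2

lemma lin_comb (n : Fin 3 → ℝ) {ι : Type} (s : Finset ι) (w : ι → ℝ) (x : ι → Fin 3 → ℝ) :
    lin n (∑ i ∈ s, w i • x i) = ∑ i ∈ s, w i * lin n (x i) := by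
  simp only [lin, Finset.sum_apply, Pi.smul_apply, smul_eq_mul, Finset.mul_sum,
    ← Finset.sum_add_distrib]
  refine Finset.sum_congr rfl fun i _ => by ring

lemma mem_hull_iff (f : Fin 8 → Fin 3 → ℝ) (x : Fin 3 → ℝ) :
    x ∈ convexHull ℝ (range f) ↔
      ∃ w : Fin 8 → ℝ, (∀ i, 0 ≤ w i) ∧ ∑ i, w i = 1 ∧ ∑ i, w i • f i = x := by
  rw [convexHull_range_eq_exists_affineCombination]
  constructor
  · rintro ⟨s, w, h0, h1, rfl⟩
    classical
    refine ⟨fun i => if i ∈ s then w i else 0, ?_, ?_, ?_⟩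
    · intro i
      dsimp only
      split_ifs with hi
      · exact h0 i hi
      · exact le_rfl
    · rw [← h1, Finset.sum_ite_mem, Finset.univ_inter]
    · rw [Finset.affineCombination_eq_linear_combination _ _ _ h1]
      simp [ite_smul, Finset.sum_ite_mem]
  · rintro ⟨w, h0, h1, rfl⟩
    refine ⟨Finset.univ, w, fun i _ => h0 i, h1, ?_⟩
    rw [Finset.affineCombination_eq_linear_combination _ _ _ h1]

lemma edge_of (f : Fin 8 → Fin 3 → ℝ) (u w : Fin 8) (n : Fin 3 → ℝ) (c : ℝ)
    (hle : ∀ i, i ≠ u → i ≠ w → lin n (f i) < c) (hu : lin n (f u) = c) (hw : lin n (f w) = c) :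
    IsExtreme ℝ (convexHull ℝ (range f)) (segment ℝ (f u) (f w)) := by
  have hall : ∀ i, lin n (f i) ≤ c := by
    intro i
    by_cases h1 : i = u
    · rw [h1, hu]
    by_cases h2 : i = w
    · rw [h2, hw]
    exact (hle i h1 h2).le
  have hsub : segment ℝ (f u) (f w) ⊆ convexHull ℝ (range f) :=
    (convex_convexHull ℝ _).segment_subset (subset_convexHull ℝ _ ⟨u, rfl⟩)
      (subset_convexHull ℝ _ ⟨w, rfl⟩)
  have hmax : ∀ x ∈ convexHull ℝ (range f), lin n x ≤ c := by
    intro x hx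
    obtain ⟨a, h0, h1, rfl⟩ := (mem_hull_iff f x).1 hx
    rw [lin_comb]
    calc ∑ i, a i * lin n (f i) ≤ ∑ i, a i * c :=
          Finset.sum_le_sum fun i _ => mul_le_mul_of_nonneg_left (hall i) (h0 i)
      _ = c := by rw [← Finset.sum_mul, h1, one_mul]
  refine ⟨hsub, ?_⟩
  intro x hx y hy z hz hxyz
  have hlin : ∀ (p q : Fin 3 → ℝ) (α β : ℝ), lin n (α • p + β • q) = α * lin n p + β * lin n q := by
    intro p q α β
    simp only [lin, Pi.add_apply, Pi.smul_apply, smul_eq_mul]
    ring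
  have hzc : lin n z = c := by
    obtain ⟨α, β, -, -, hab, rfl⟩ := hz
    rw [hlin, hu, hw, ← add_mul, hab, one_mul]
  obtain ⟨α, β, hα, hβ, hab, rfl⟩ := hxyz
  rw [hlin] at hzc
  have hxc : lin n x = c := by
    have h1 := hmax x hx
    have h2 := hmax y hy
    refine le_antisymm h1 ?_
    by_contra hlt
    have h3 := mul_lt_mul_of_pos_left (not_le.1 hlt) hα
    have h4 := mul_le_mul_of_nonneg_left h2 hβ.le
    have h5 : α * c + β * c = c := by rw [← add_mul, hab, one_mul]
    linarith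
  obtain ⟨a, h0, h1, rfl⟩ := (mem_hull_iff f x).1 hx
  rw [lin_comb] at hxc
  have hz : ∀ i, i ≠ u → i ≠ w → a i = 0 := by
    have hs : ∑ i, a i * (c - lin n (f i)) = 0 := by
      simp only [mul_sub, Finset.sum_sub_distrib]
      rw [hxc, ← Finset.sum_mul, h1]
      ring
    have := (Finset.sum_eq_zero_iff_of_nonneg
      (fun i _ => mul_nonneg (h0 i) (sub_nonneg.2 (hall i)))).1 hs
    intro i hi1 hi2
    have h3 := this i (Finset.mem_univ _)
    rcases mul_eq_zero.1 h3 with h4 | h4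
    · exact h4
    · exact absurd h4 (by have := hle i hi1 hi2; linarith)
  by_cases huw : u = w
  · subst huw
    have : ∑ i, a i • f i = a u • f u := Finset.sum_eq_single u
      (fun i _ hi => by rw [hz i hi hi, zero_smul]) (fun h => absurd (Finset.mem_univ _) h)
    have h5 : ∑ i, a i = a u := Finset.sum_eq_single u
      (fun i _ hi => hz i hi hi) (fun h => absurd (Finset.mem_univ _) h)
    rw [this, ← h5, h1, one_smul]
    exact left_mem_segment ℝ _ _
  · have h4 : ∑ i, a i • f i = a u • f u + a w • f w := by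
      rw [← Finset.sum_subset (Finset.subset_univ {u, w})]
      · exact Finset.sum_pair huw
      · intro i _ hi
        simp only [Finset.mem_insert, Finset.mem_singleton, not_or] at hi
        rw [hz i hi.1 hi.2, zero_smul]
    have h5 : ∑ i, a i = a u + a w := by
      rw [← Finset.sum_subset (Finset.subset_univ {u, w})]
      · exact Finset.sum_pair huw
      · intro i _ hi
        simp only [Finset.mem_insert, Finset.mem_singleton, not_or] at hi
        exact hz i hi.1 hi.2
    rw [h4]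
    exact ⟨a u, a w, h0 u, h0 w, by rw [← h5, h1], rfl⟩

lemma vert_of (f : Fin 8 → Fin 3 → ℝ) (u : Fin 8) (n : Fin 3 → ℝ) (c : ℝ)
    (hle : ∀ i, i ≠ u → lin n (f i) < c) (hu : lin n (f u) = c) :
    f u ∈ Set.extremePoints ℝ (convexHull ℝ (range f)) := by
  have h := edge_of f u u n c (fun i hi _ => hle i hi) hu hu
  rw [segment_same] at h
  exact isExtreme_singleton.1 h

lemma not_edge_of (f : Fin 8 → Fin 3 → ℝ) (hinj : Function.Injective f)
    (hext : ∀ w, f w ∈ Set.extremePoints ℝ (convexHull ℝ (range f)))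
    (u w k : Fin 8) (hku : k ≠ u) (hkw : k ≠ w) (α : ℝ) (h0 : 0 < α) (h1 : α < 1)
    (μ : Fin 8 → ℝ) (hμ : ∀ i, 0 ≤ μ i) (hk : 0 < μ k) (hk1 : μ k < 1) (hs : ∑ i, μ i = 1)
    (he : ∑ i, μ i • f i = (1 - α) • f u + α • f w) :
    ¬ IsExtreme ℝ (convexHull ℝ (range f)) (segment ℝ (f u) (f w)) := by
  intro hE
  -- the remaining combination
  set y : Fin 3 → ℝ := ∑ i, ((if i = k then 0 else μ i) / (1 - μ k)) • f i with hy
  have hpos : 0 < 1 - μ k := by linarith
  have hsum : ∑ i, (if i = k then 0 else μ i) = 1 - μ k := by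
    have : ∑ i, μ i = ∑ i, (if i = k then 0 else μ i) + ∑ i, (if i = k then μ i else 0) := by
      rw [← Finset.sum_add_distrib]
      refine Finset.sum_congr rfl fun i _ => ?_
      split_ifs <;> simp
    rw [Finset.sum_ite_eq' Finset.univ k, if_pos (Finset.mem_univ _)] at this
    linarith
  have hyP : y ∈ convexHull ℝ (range f) := by
    rw [mem_hull_iff]
    refine ⟨fun i => (if i = k then 0 else μ i) / (1 - μ k), ?_, ?_, rfl⟩
    · intro i
      apply div_nonneg _ hpos.le
      split_ifs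
      · exact le_rfl
      · exact hμ i
    · rw [← Finset.sum_div, hsum, div_self hpos.ne']
  have hz : (1 - α) • f u + α • f w ∈ segment ℝ (f u) (f w) :=
    ⟨1 - α, α, by linarith, h0.le, by ring, rfl⟩
  have hm : (1 - α) • f u + α • f w ∈ openSegment ℝ (f k) y := by
    refine ⟨μ k, 1 - μ k, hk, hpos, by ring, ?_⟩
    rw [← he, hy, Finset.smul_sum]
    have : ∀ i, (1 - μ k) • ((if i = k then 0 else μ i) / (1 - μ k)) • f i =
        (if i = k then 0 else μ i) • f i := by
      intro i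
      rw [smul_smul, mul_div_cancel₀ _ hpos.ne']
    rw [Finset.sum_congr rfl fun i _ => this i]
    have h2 : ∑ i, μ i • f i = ∑ i, (if i = k then 0 else μ i) • f i +
        ∑ i, (if i = k then μ i • f i else 0) := by
      rw [← Finset.sum_add_distrib]
      refine Finset.sum_congr rfl fun i _ => ?_
      split_ifs <;> simp
    rw [Finset.sum_ite_eq' Finset.univ k, if_pos (Finset.mem_univ _)] at h2
    rw [h2, add_comm]
  have hk2 := hE.left_mem_of_mem_openSegment (subset_convexHull ℝ _ ⟨k, rfl⟩) hyP hz hm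
  have h3 := (mem_extremePoints_iff_forall_segment.1 (hext k)).2 (f u)
    (subset_convexHull ℝ _ ⟨u, rfl⟩) (f w) (subset_convexHull ℝ _ ⟨w, rfl⟩) hk2
  rcases h3 with h3 | h3
  · exact hku (hinj h3.symm)
  · exact hkw (hinj h3.symm)


lemma gg_ext (w : Fin 8) : gg w ∈ Set.extremePoints ℝ (convexHull ℝ (range gg)) := by
  fin_cases w
  · exact vert_of gg 0 ![-19, -15, -48] 0 (by
      intro i hi
      fin_cases i <;> first | exact absurd rfl hi | (simp [lin, gg] <;> norm_num)) (by
      simp [lin, gg] <;> norm_num)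
  · exact vert_of gg 1 ![-8, 0, -84] 72 (by
      intro i hi
      fin_cases i <;> first | exact absurd rfl hi | (simp [lin, gg] <;> norm_num)) (by
      simp [lin, gg] <;> norm_num)
  · exact vert_of gg 2 ![3, -11, -11] 108 (by
      intro i hi
      fin_cases i <;> first | exact absurd rfl hi | (simp [lin, gg] <;> norm_num)) (by
      simp [lin, gg] <;> norm_num)
  · exact vert_of gg 3 ![-15, 4, -45] 144 (by
      intro i hi
      fin_cases i <;> first | exact absurd rfl hi | (simp [lin, gg] <;> norm_num)) (by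
      simp [lin, gg] <;> norm_num)
  · exact vert_of gg 4 ![-18, 0, 0] 36 (by
      intro i hi
      fin_cases i <;> first | exact absurd rfl hi | (simp [lin, gg] <;> norm_num)) (by
      simp [lin, gg] <;> norm_num)
  · exact vert_of gg 5 ![-11, -11, 3] 108 (by
      intro i hi
      fin_cases i <;> first | exact absurd rfl hi | (simp [lin, gg] <;> norm_num)) (by
      simp [lin, gg] <;> norm_num)
  · exact vert_of gg 6 ![0, -18, 0] 36 (by
      intro i hi
      fin_cases i <;> first | exact absurd rfl hi | (simp [lin, gg] <;> norm_num)) (by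
      simp [lin, gg] <;> norm_num)
  · exact vert_of gg 7 ![-10, 0, -76] 36 (by
      intro i hi
      fin_cases i <;> first | exact absurd rfl hi | (simp [lin, gg] <;> norm_num)) (by
      simp [lin, gg] <;> norm_num)

lemma gg_edge (u w : Fin 8) (h : Gr.Adj u w) (huw : u < w) :
    IsExtreme ℝ (convexHull ℝ (range gg)) (segment ℝ (gg u) (gg w)) := by
  have key : (u, w) ∈ ([(0,1),(1,2),(2,3),(3,4),(4,5),(0,5),(0,2),(2,5),(3,5),(1,3),(0,3),(0,4),
    (0,6),(2,6),(5,6),(0,7),(1,7),(3,7)] : List (Fin 8 × Fin 8)) := by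
    revert u w
    decide
  simp only [List.mem_cons, Prod.mk.injEq, List.not_mem_nil, or_false] at key
  rcases key with ⟨rfl, rfl⟩ | ⟨rfl, rfl⟩ | ⟨rfl, rfl⟩ | ⟨rfl, rfl⟩ | ⟨rfl, rfl⟩ | ⟨rfl, rfl⟩ | ⟨rfl, rfl⟩ | ⟨rfl, rfl⟩ | ⟨rfl, rfl⟩ | ⟨rfl, rfl⟩ | ⟨rfl, rfl⟩ | ⟨rfl, rfl⟩ | ⟨rfl, rfl⟩ | ⟨rfl, rfl⟩ | ⟨rfl, rfl⟩ | ⟨rfl, rfl⟩ | ⟨rfl, rfl⟩ | ⟨rfl, rfl⟩
  · exact edge_of gg 0 1 ![-5, -2, -42] 0 (by
      intro i hi hi2
      fin_cases i <;> first | exact absurd rfl hi | exact absurd rfl hi2 |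
        (simp [lin, gg] <;> norm_num)) (by simp [lin, gg] <;> norm_num) (by simp [lin, gg] <;> norm_num)
  · exact edge_of gg 1 2 ![1, 0, -12] 36 (by
      intro i hi hi2
      fin_cases i <;> first | exact absurd rfl hi | exact absurd rfl hi2 |
        (simp [lin, gg] <;> norm_num)) (by simp [lin, gg] <;> norm_num) (by simp [lin, gg] <;> norm_num)
  · exact edge_of gg 2 3 ![2, 2, -5] 72 (by
      intro i hi hi2
      fin_cases i <;> first | exact absurd rfl hi | exact absurd rfl hi2 |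
        (simp [lin, gg] <;> norm_num)) (by simp [lin, gg] <;> norm_num) (by simp [lin, gg] <;> norm_num)
  · exact edge_of gg 3 4 ![-12, 1, 0] 36 (by
      intro i hi hi2
      fin_cases i <;> first | exact absurd rfl hi | exact absurd rfl hi2 |
        (simp [lin, gg] <;> norm_num)) (by simp [lin, gg] <;> norm_num) (by simp [lin, gg] <;> norm_num)
  · exact edge_of gg 4 5 ![-12, 0, 1] 36 (by
      intro i hi hi2
      fin_cases i <;> first | exact absurd rfl hi | exact absurd rfl hi2 |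
        (simp [lin, gg] <;> norm_num)) (by simp [lin, gg] <;> norm_num) (by simp [lin, gg] <;> norm_num)
  · exact edge_of gg 0 5 ![-7, -7, 0] 0 (by
      intro i hi hi2
      fin_cases i <;> first | exact absurd rfl hi | exact absurd rfl hi2 |
        (simp [lin, gg] <;> norm_num)) (by simp [lin, gg] <;> norm_num) (by simp [lin, gg] <;> norm_num)
  · exact edge_of gg 0 2 ![0, -7, -7] 0 (by
      intro i hi hi2
      fin_cases i <;> first | exact absurd rfl hi | exact absurd rfl hi2 |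
        (simp [lin, gg] <;> norm_num)) (by simp [lin, gg] <;> norm_num) (by simp [lin, gg] <;> norm_num)
  · exact edge_of gg 2 5 ![2, -5, 2] 72 (by
      intro i hi hi2
      fin_cases i <;> first | exact absurd rfl hi | exact absurd rfl hi2 |
        (simp [lin, gg] <;> norm_num)) (by simp [lin, gg] <;> norm_num) (by simp [lin, gg] <;> norm_num)
  · exact edge_of gg 3 5 ![-5, 2, 2] 72 (by
      intro i hi hi2
      fin_cases i <;> first | exact absurd rfl hi | exact absurd rfl hi2 |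
        (simp [lin, gg] <;> norm_num)) (by simp [lin, gg] <;> norm_num) (by simp [lin, gg] <;> norm_num)
  · exact edge_of gg 1 3 ![-3, 2, -42] 72 (by
      intro i hi hi2
      fin_cases i <;> first | exact absurd rfl hi | exact absurd rfl hi2 |
        (simp [lin, gg] <;> norm_num)) (by simp [lin, gg] <;> norm_num) (by simp [lin, gg] <;> norm_num)
  · exact edge_of gg 0 3 ![-7, 0, -5] 0 (by
      intro i hi hi2
      fin_cases i <;> first | exact absurd rfl hi | exact absurd rfl hi2 |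
        (simp [lin, gg] <;> norm_num)) (by simp [lin, gg] <;> norm_num) (by simp [lin, gg] <;> norm_num)
  · exact edge_of gg 0 4 ![-12, -1, -1] 0 (by
      intro i hi hi2
      fin_cases i <;> first | exact absurd rfl hi | exact absurd rfl hi2 |
        (simp [lin, gg] <;> norm_num)) (by simp [lin, gg] <;> norm_num) (by simp [lin, gg] <;> norm_num)
  · exact edge_of gg 0 6 ![-1, -12, -1] 0 (by
      intro i hi hi2
      fin_cases i <;> first | exact absurd rfl hi | exact absurd rfl hi2 |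
        (simp [lin, gg] <;> norm_num)) (by simp [lin, gg] <;> norm_num) (by simp [lin, gg] <;> norm_num)
  · exact edge_of gg 2 6 ![1, -12, 0] 36 (by
      intro i hi hi2
      fin_cases i <;> first | exact absurd rfl hi | exact absurd rfl hi2 |
        (simp [lin, gg] <;> norm_num)) (by simp [lin, gg] <;> norm_num) (by simp [lin, gg] <;> norm_num)
  · exact edge_of gg 5 6 ![0, -12, 1] 36 (by
      intro i hi hi2
      fin_cases i <;> first | exact absurd rfl hi | exact absurd rfl hi2 |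
        (simp [lin, gg] <;> norm_num)) (by simp [lin, gg] <;> norm_num) (by simp [lin, gg] <;> norm_num)
  · exact edge_of gg 0 7 ![-6, -1, -40] 0 (by
      intro i hi hi2
      fin_cases i <;> first | exact absurd rfl hi | exact absurd rfl hi2 |
        (simp [lin, gg] <;> norm_num)) (by simp [lin, gg] <;> norm_num) (by simp [lin, gg] <;> norm_num)
  · exact edge_of gg 1 7 ![-9, 0, -72] 36 (by
      intro i hi hi2
      fin_cases i <;> first | exact absurd rfl hi | exact absurd rfl hi2 |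
        (simp [lin, gg] <;> norm_num)) (by simp [lin, gg] <;> norm_num) (by simp [lin, gg] <;> norm_num)
  · exact edge_of gg 3 7 ![-5, 1, -40] 36 (by
      intro i hi hi2
      fin_cases i <;> first | exact absurd rfl hi | exact absurd rfl hi2 |
        (simp [lin, gg] <;> norm_num)) (by simp [lin, gg] <;> norm_num) (by simp [lin, gg] <;> norm_num)


lemma gg_inj : Function.Injective gg := by
  intro u w h
  have h0 := congrFun h 0
  have h1 := congrFun h 1
  have h2 := congrFun h 2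
  fin_cases u <;> fin_cases w <;> first | rfl | (exfalso; revert h0 h1 h2; simp [gg] <;> norm_num)

lemma gg_interior : (interior (convexHull ℝ (range gg))).Nonempty := by
  have hopen : IsOpen {x : Fin 3 → ℝ | 0 < x 0 ∧ 0 < x 1 ∧ 0 < x 2 ∧ x 0 + x 1 + x 2 < 36} := by
    apply IsOpen.and
    · exact isOpen_lt continuous_const (continuous_apply 0)
    apply IsOpen.and
    · exact isOpen_lt continuous_const (continuous_apply 1)
    apply IsOpen.and
    · exact isOpen_lt continuous_const (continuous_apply 2)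
    · exact isOpen_lt (by fun_prop) continuous_const
  have hsub : {x : Fin 3 → ℝ | 0 < x 0 ∧ 0 < x 1 ∧ 0 < x 2 ∧ x 0 + x 1 + x 2 < 36} ⊆
      convexHull ℝ (range gg) := by
    rintro x ⟨h0, h1, h2, h3⟩
    rw [mem_hull_iff]
    refine ⟨![1 - x 0 / 36 - x 1 / 36 - x 2 / 36, 0, x 0 / 36, x 1 / 36, 0, x 2 / 36, 0, 0],
      ?_, ?_, ?_⟩
    · intro i
      fin_cases i <;> simp <;> linarith
    · simp [Fin.sum_univ_succ]
      ring
    · ext j
      fin_cases j <;> simp [Fin.sum_univ_succ, gg]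
  refine ⟨fun _ => 1, interior_maximal hsub hopen ?_⟩
  simp only [mem_setOf_eq]
  norm_num

lemma gg_nonedge (u w : Fin 8) (h : ¬ Gr.Adj u w) (huw : u < w) :
    ¬ IsExtreme ℝ (convexHull ℝ (range gg)) (segment ℝ (gg u) (gg w)) := by
  have key : (u, w) ∈ ([(1,4),(1,5),(1,6),(2,4),(2,7),(3,6),(4,6),(4,7),(5,7),(6,7)] : List (Fin 8 × Fin 8)) := by
    revert u w
    decide
  simp only [List.mem_cons, Prod.mk.injEq, List.not_mem_nil, or_false] at key
  rcases key with ⟨rfl, rfl⟩ | ⟨rfl, rfl⟩ | ⟨rfl, rfl⟩ | ⟨rfl, rfl⟩ | ⟨rfl, rfl⟩ | ⟨rfl, rfl⟩ | ⟨rfl, rfl⟩ | ⟨rfl, rfl⟩ | ⟨rfl, rfl⟩ | ⟨rfl, rfl⟩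
  · refine not_edge_of gg gg_inj gg_ext 1 4 0 (by decide) (by decide) (1/7) (by norm_num)
      (by norm_num) ![7/18, 0, 5/18, 1/3, 0, 0, 0, 0] ?_ ?_ ?_ ?_ ?_
    · intro i
      fin_cases i <;> simp <;> norm_num
    · simp <;> norm_num
    · simp <;> norm_num
    · simp [Fin.sum_univ_succ] <;> norm_num
    · ext j
      fin_cases j <;> simp [Fin.sum_univ_succ, gg] <;> norm_num
  · refine not_edge_of gg gg_inj gg_ext 1 5 0 (by decide) (by decide) (1/19) (by norm_num)
      (by norm_num) ![7/19, 0, 6/19, 6/19, 0, 0, 0, 0] ?_ ?_ ?_ ?_ ?_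
    · intro i
      fin_cases i <;> simp <;> norm_num
    · simp <;> norm_num
    · simp <;> norm_num
    · simp [Fin.sum_univ_succ] <;> norm_num
    · ext j
      fin_cases j <;> simp [Fin.sum_univ_succ, gg] <;> norm_num
  · refine not_edge_of gg gg_inj gg_ext 1 6 0 (by decide) (by decide) (1/7) (by norm_num)
      (by norm_num) ![7/18, 0, 1/3, 5/18, 0, 0, 0, 0] ?_ ?_ ?_ ?_ ?_
    · intro i
      fin_cases i <;> simp <;> norm_num
    · simp <;> norm_num
    · simp <;> norm_num
    · simp [Fin.sum_univ_succ] <;> norm_num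
    · ext j
      fin_cases j <;> simp [Fin.sum_univ_succ, gg] <;> norm_num
  · refine not_edge_of gg gg_inj gg_ext 2 4 1 (by decide) (by decide) (18/25) (by norm_num)
      (by norm_num) ![0, 18/25, 0, 0, 0, 7/25, 0, 0] ?_ ?_ ?_ ?_ ?_
    · intro i
      fin_cases i <;> simp <;> norm_num
    · simp <;> norm_num
    · simp <;> norm_num
    · simp [Fin.sum_univ_succ] <;> norm_num
    · ext j
      fin_cases j <;> simp [Fin.sum_univ_succ, gg] <;> norm_num
  · refine not_edge_of gg gg_inj gg_ext 2 7 1 (by decide) (by decide) (18/19) (by norm_num)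
      (by norm_num) ![5/19, 9/19, 0, 5/19, 0, 0, 0, 0] ?_ ?_ ?_ ?_ ?_
    · intro i
      fin_cases i <;> simp <;> norm_num
    · simp <;> norm_num
    · simp <;> norm_num
    · simp [Fin.sum_univ_succ] <;> norm_num
    · ext j
      fin_cases j <;> simp [Fin.sum_univ_succ, gg] <;> norm_num
  · refine not_edge_of gg gg_inj gg_ext 3 6 1 (by decide) (by decide) (18/25) (by norm_num)
      (by norm_num) ![0, 18/25, 0, 0, 0, 7/25, 0, 0] ?_ ?_ ?_ ?_ ?_
    · intro i
      fin_cases i <;> simp <;> norm_num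
    · simp <;> norm_num
    · simp <;> norm_num
    · simp [Fin.sum_univ_succ] <;> norm_num
    · ext j
      fin_cases j <;> simp [Fin.sum_univ_succ, gg] <;> norm_num
  · refine not_edge_of gg gg_inj gg_ext 4 6 1 (by decide) (by decide) (1/2) (by norm_num)
      (by norm_num) ![49/216, 5/12, 0, 0, 0, 77/216, 0, 0] ?_ ?_ ?_ ?_ ?_
    · intro i
      fin_cases i <;> simp <;> norm_num
    · simp <;> norm_num
    · simp <;> norm_num
    · simp [Fin.sum_univ_succ] <;> norm_num
    · ext j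
      fin_cases j <;> simp [Fin.sum_univ_succ, gg] <;> norm_num
  · refine not_edge_of gg gg_inj gg_ext 4 7 0 (by decide) (by decide) (35/36) (by norm_num)
      (by norm_num) ![28/81, 23/72, 0, 217/648, 0, 0, 0, 0] ?_ ?_ ?_ ?_ ?_
    · intro i
      fin_cases i <;> simp <;> norm_num
    · simp <;> norm_num
    · simp <;> norm_num
    · simp [Fin.sum_univ_succ] <;> norm_num
    · ext j
      fin_cases j <;> simp [Fin.sum_univ_succ, gg] <;> norm_num
  · refine not_edge_of gg gg_inj gg_ext 5 7 0 (by decide) (by decide) (108/109) (by norm_num)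
      (by norm_num) ![37/109, 36/109, 0, 36/109, 0, 0, 0, 0] ?_ ?_ ?_ ?_ ?_
    · intro i
      fin_cases i <;> simp <;> norm_num
    · simp <;> norm_num
    · simp <;> norm_num
    · simp [Fin.sum_univ_succ] <;> norm_num
    · ext j
      fin_cases j <;> simp [Fin.sum_univ_succ, gg] <;> norm_num
  · refine not_edge_of gg gg_inj gg_ext 6 7 1 (by decide) (by decide) (42/43) (by norm_num)
      (by norm_num) ![259/774, 15/43, 0, 245/774, 0, 0, 0, 0] ?_ ?_ ?_ ?_ ?_
    · intro i
      fin_cases i <;> simp <;> norm_num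
    · simp <;> norm_num
    · simp <;> norm_num
    · simp [Fin.sum_univ_succ] <;> norm_num
    · ext j
      fin_cases j <;> simp [Fin.sum_univ_succ, gg] <;> norm_num

lemma gg_realizes : Realizes Gr gg := by
  refine ⟨gg_inj, gg_interior, gg_ext, ?_⟩
  intro u w
  constructor
  · intro h
    refine ⟨h.ne, ?_⟩
    rcases lt_or_gt_of_ne h.ne with hlt | hlt
    · exact gg_edge u w h hlt
    · rw [segment_symm]
      exact gg_edge w u h.symm hlt
  · rintro ⟨hne, hE⟩
    by_contra h
    rcases lt_or_gt_of_ne hne with hlt | hlt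
    · exact gg_nonedge u w h hlt hE
    · rw [segment_symm] at hE
      exact gg_nonedge w u (fun h' => h h'.symm) hlt hE


/-! ### The obstruction -/

lemma proj_comb (s t : ℝ) (x y : Fin 3 → ℝ) :
    proj (s • x + t • y) = s • proj x + t • proj y := by
  ext j
  fin_cases j <;> simp [proj]

lemma ext_proj {x y : Fin 3 → ℝ} (h : proj x = proj y) (h2 : x 2 = y 2) : x = y := by
  ext j
  fin_cases j
  · exact congrFun h 0
  · exact congrFun h 1
  · exact h2

/-- If a point of `P` lies on the negative side of an edge over an inner point of the edge, then no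
point of `P` lies on the positive side over an inner point of the edge. -/
lemma top_of {P : Set (Fin 3 → ℝ)} {p q : Fin 3 → ℝ} (hE : IsExtreme ℝ P (segment ℝ p q))
    (hpq : proj p ≠ proj q) (ε : ℝ) {x y : Fin 3 → ℝ} (hx : x ∈ P) (hy : y ∈ P) {s r : ℝ}
    (hs0 : 0 < s) (hs1 : s < 1) (hr0 : 0 < r) (hr1 : r < 1)
    (hxs : proj x = (1 - s) • proj p + s • proj q)
    (hyr : proj y = (1 - r) • proj p + r • proj q)
    (hlt : ε * x 2 < ε * ((1 - s) * p 2 + s * q 2)) :
    ε * y 2 ≤ ε * ((1 - r) * p 2 + r * q 2) := by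
  by_contra hcon
  rw [not_le] at hcon
  set A : ℝ := ε * ((1 - s) * p 2 + s * q 2) - ε * x 2 with hA
  set B : ℝ := ε * y 2 - ε * ((1 - r) * p 2 + r * q 2) with hB
  have hA0 : 0 < A := by rw [hA]; linarith
  have hB0 : 0 < B := by rw [hB]; linarith
  have hAB : 0 < A + B := by linarith
  have hε : ε ≠ 0 := by
    rintro rfl
    simp at hlt
  set t : ℝ := (B * s + A * r) / (A + B) with ht
  have ht' : t * (A + B) = B * s + A * r := by
    rw [ht, div_mul_cancel₀ _ hAB.ne']
  have hm : (B / (A + B)) • x + (A / (A + B)) • y = (1 - t) • p + t • q := by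
    apply ext_proj
    · rw [proj_comb, proj_comb, hxs, hyr]
      ext j
      simp only [Pi.add_apply, Pi.smul_apply, smul_eq_mul]
      rw [div_mul_eq_mul_div, div_mul_eq_mul_div, ← add_div, div_eq_iff hAB.ne']
      have e : ((1 - t) * proj p j + t * proj q j) * (A + B) =
        ((A + B) - t * (A + B)) * proj p j + (t * (A + B)) * proj q j := by ring
      rw [e, ht']
      ring
    · simp only [Pi.add_apply, Pi.smul_apply, smul_eq_mul]
      rw [div_mul_eq_mul_div, div_mul_eq_mul_div, ← add_div, div_eq_iff hAB.ne']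
      have e : ((1 - t) * p 2 + t * q 2) * (A + B) =
        ((A + B) - t * (A + B)) * p 2 + (t * (A + B)) * q 2 := by ring
      rw [e, ht']
      have hx2 : ε * x 2 = ε * ((1 - s) * p 2 + s * q 2) - A := by rw [hA]; ring
      have hy2 : ε * y 2 = ε * ((1 - r) * p 2 + r * q 2) + B := by rw [hB]; ring
      apply mul_left_cancel₀ hε
      have e1 : ε * (B * x 2 + A * y 2) = B * (ε * x 2) + A * (ε * y 2) := by ring
      rw [e1, hx2, hy2]
      ring
  have ht0 : 0 < t := by rw [ht]; positivity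
  have ht1 : t < 1 := by
    rw [ht, div_lt_one hAB]
    nlinarith
  have hz : (1 - t) • p + t • q ∈ segment ℝ p q :=
    ⟨1 - t, t, by linarith, ht0.le, by ring, rfl⟩
  have hmem : (1 - t) • p + t • q ∈ openSegment ℝ x y := by
    rw [← hm]
    exact ⟨B / (A + B), A / (A + B), by positivity, by positivity, by field_simp; ring, rfl⟩
  obtain ⟨c, d, hc, hd, hcd, hxe⟩ := hE.left_mem_of_mem_openSegment hx hy hz hmem
  have hc' : c = 1 - d := by linarith
  subst hc'
  have h1 : (1 - d) • proj p + d • proj q = (1 - s) • proj p + s • proj q := by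
    rw [← hxs, ← proj_comb, hxe]
  have hds : d = s := by
    by_contra hne
    apply hpq
    ext j
    have h2 := congrFun h1 j
    simp only [Pi.add_apply, Pi.smul_apply, smul_eq_mul] at h2
    have h3 : (d - s) * (proj q j - proj p j) = 0 := by linarith
    rcases mul_eq_zero.1 h3 with h4 | h4
    · exact absurd (by linarith) hne
    · linarith
  subst hds
  have hx2 : x 2 = (1 - d) * p 2 + d * q 2 := by
    rw [← hxe]
    simp
  rw [hx2] at hlt
  exact lt_irrefl _ hlt

/-- Heights differ where an edge crosses a segment between two other vertices. -/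
lemma cross_ne {P : Set (Fin 3 → ℝ)} {p q u w : Fin 3 → ℝ}
    (hE : IsExtreme ℝ P (segment ℝ p q)) (hp : p ∈ P) (hq : q ∈ P)
    (hu : u ∈ Set.extremePoints ℝ P) (hw : w ∈ P)
    (hup : u ≠ p) (huq : u ≠ q) {s r : ℝ}
    (hs0 : 0 < s) (hs1 : s < 1) (hr0 : 0 < r) (hr1 : r < 1)
    (h : (1 - s) • proj p + s • proj q = (1 - r) • proj u + r • proj w) :
    (1 - s) * p 2 + s * q 2 ≠ (1 - r) * u 2 + r * w 2 := by
  intro h2
  have he : (1 - s) • p + s • q = (1 - r) • u + r • w := by
    apply ext_proj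
    · rw [proj_comb, proj_comb, h]
    · simpa using h2
  have hz : (1 - s) • p + s • q ∈ segment ℝ p q :=
    ⟨1 - s, s, by linarith, hs0.le, by ring, rfl⟩
  have hmem : (1 - s) • p + s • q ∈ openSegment ℝ u w := by
    rw [he]
    exact ⟨1 - r, r, by linarith, hr0, by ring, rfl⟩
  have h3 := hE.left_mem_of_mem_openSegment hu.1 hw hz hmem
  rcases (mem_extremePoints_iff_forall_segment.1 hu).2 p hp q hq h3 with h4 | h4
  · exact hup h4.symm
  · exact huq h4.symm

/-- The core: over an affinely regular hexagon, edges `02, 25, 35, 13, 03, 04` cannot all be there,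
if the edge `25` is on the positive side of the edge `03`. -/
lemma core (P : Set (Fin 3 → ℝ)) (hP : Convex ℝ P) (f : Fin 8 → Fin 3 → ℝ)
    (hinj : Function.Injective f) (hext : ∀ w, f w ∈ Set.extremePoints ℝ P)
    (h02 : IsExtreme ℝ P (segment ℝ (f 0) (f 2))) (h25 : IsExtreme ℝ P (segment ℝ (f 2) (f 5)))
    (h35 : IsExtreme ℝ P (segment ℝ (f 3) (f 5))) (h13 : IsExtreme ℝ P (segment ℝ (f 1) (f 3)))
    (h03 : IsExtreme ℝ P (segment ℝ (f 0) (f 3))) (h04 : IsExtreme ℝ P (segment ℝ (f 0) (f 4)))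
    (o : Fin 2 → ℝ) (q3 : proj (f 3) = (2 : ℝ) • o - proj (f 0))
    (q4 : proj (f 4) = (2 : ℝ) • o - proj (f 1)) (q5 : proj (f 5) = (2 : ℝ) • o - proj (f 2))
    (q1 : proj (f 1) = proj (f 0) + proj (f 2) - o)
    (n02 : proj (f 0) ≠ proj (f 2)) (n25 : proj (f 2) ≠ proj (f 5))
    (n35 : proj (f 3) ≠ proj (f 5)) (n13 : proj (f 1) ≠ proj (f 3))
    (n03 : proj (f 0) ≠ proj (f 3)) (n04 : proj (f 0) ≠ proj (f 4))
    (ε : ℝ) (hε : ε * (f 0 2 + f 3 2) < ε * (f 2 2 + f 5 2)) : False := by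
  have hε0 : ε ≠ 0 := by
    rintro rfl
    simp at hε
  have hm : ∀ i, f i ∈ P := fun i => (hext i).1
  have seg : ∀ (i j : Fin 8) (s : ℝ), 0 < s → s < 1 → (1 - s) • f i + s • f j ∈ P := by
    intro i j s h0 h1
    exact hP (hm i) (hm j) (by linarith) h0.le (by ring)
  have segp : ∀ (i j : Fin 8) (s : ℝ), proj ((1 - s) • f i + s • f j) =
      (1 - s) • proj (f i) + s • proj (f j) := fun i j s => proj_comb _ _ _ _
  have seg2 : ∀ (i j : Fin 8) (s : ℝ), ((1 - s) • f i + s • f j) 2 =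
      (1 - s) * f i 2 + s * f j 2 := by
    intro i j s
    simp
  -- `top i j`: no point of P strictly on the positive side of the edge
  have top : ∀ (i j k l : Fin 8) (s r : ℝ), IsExtreme ℝ P (segment ℝ (f i) (f j)) →
      proj (f i) ≠ proj (f j) → 0 < s → s < 1 → 0 < r → r < 1 →
      (1 - r) • proj (f k) + r • proj (f l) = (1 - s) • proj (f i) + s • proj (f j) →
      ∀ (ε : ℝ), ε * ((1 - r) * f k 2 + r * f l 2) < ε * ((1 - s) * f i 2 + s * f j 2) →
      ∀ (k' l' : Fin 8) (s' r' : ℝ), 0 < s' → s' < 1 → 0 < r' → r' < 1 →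
      (1 - r') • proj (f k') + r' • proj (f l') = (1 - s') • proj (f i) + s' • proj (f j) →
      ε * ((1 - r') * f k' 2 + r' * f l' 2) ≤ ε * ((1 - s') * f i 2 + s' * f j 2) := by
    intro i j k l s r hE hne hs0 hs1 hr0 hr1 he ε hlt k' l' s' r' hs0' hs1' hr0' hr1' he'
    have := top_of hE hne ε (seg k l r hr0 hr1) (seg k' l' r' hr0' hr1') hs0 hs1 hs0' hs1'
      (by rw [segp, he]) (by rw [segp, he']) (by rw [seg2]; exact hlt)
    rwa [seg2] at this
  have cne : ∀ (i j k l : Fin 8) (s r : ℝ), IsExtreme ℝ P (segment ℝ (f i) (f j)) →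
      k ≠ i → k ≠ j → 0 < s → s < 1 → 0 < r → r < 1 →
      (1 - s) • proj (f i) + s • proj (f j) = (1 - r) • proj (f k) + r • proj (f l) →
      (1 - s) * f i 2 + s * f j 2 ≠ (1 - r) * f k 2 + r * f l 2 := by
    intro i j k l s r hE hki hkj hs0 hs1 hr0 hr1 he
    exact cross_ne hE (hm i) (hm j) (hext k) (hm l) (fun h => hki (hinj h))
      (fun h => hkj (hinj h)) hs0 hs1 hr0 hr1 he
  have mulne : ∀ x y : ℝ, x ≠ y → ε * x ≠ ε * y := fun x y h h' => h (mul_left_cancel₀ hε0 h')
  -- the edge 25 is on the positive side at the centre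
  have c0 : (1 - 1/2 : ℝ) • proj (f 0) + (1/2 : ℝ) • proj (f 3) =
      (1 - 1/2 : ℝ) • proj (f 2) + (1/2 : ℝ) • proj (f 5) := by
    rw [q3, q5]
    ext j
    simp only [Pi.add_apply, Pi.smul_apply, Pi.sub_apply, smul_eq_mul]
    ring
  have b0 : ε * ((1 - 1/2) * f 0 2 + 1/2 * f 3 2) < ε * ((1 - 1/2) * f 2 2 + 1/2 * f 5 2) := by
    linarith
  -- 13 below 25 at their crossing
  have c1 : (1 - 1/2 : ℝ) • proj (f 1) + (1/2 : ℝ) • proj (f 3) =
      (1 - 1/4 : ℝ) • proj (f 2) + (1/4 : ℝ) • proj (f 5) := by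
    rw [q1, q3, q5]
    ext j
    simp only [Pi.add_apply, Pi.smul_apply, Pi.sub_apply, smul_eq_mul]
    ring
  have b1 := top 2 5 0 3 (1/2) (1/2) h25 n25 (by norm_num) (by norm_num) (by norm_num)
    (by norm_num) c0 ε b0 1 3 (1/4) (1/2) (by norm_num) (by norm_num) (by norm_num) (by norm_num) c1
  have b1' := lt_of_le_of_ne b1 (mulne _ _ (cne 2 5 1 3 (1/4) (1/2) h25 (by decide) (by decide)
    (by norm_num) (by norm_num) (by norm_num) (by norm_num) c1.symm).symm)
  -- 40 below 25 at their crossing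
  have c2 : (1 - 1/2 : ℝ) • proj (f 0) + (1/2 : ℝ) • proj (f 4) =
      (1 - 3/4 : ℝ) • proj (f 2) + (3/4 : ℝ) • proj (f 5) := by
    rw [q4, q1, q5]
    ext j
    simp only [Pi.add_apply, Pi.smul_apply, Pi.sub_apply, smul_eq_mul]
    ring
  have b2 := top 2 5 0 3 (1/2) (1/2) h25 n25 (by norm_num) (by norm_num) (by norm_num)
    (by norm_num) c0 ε b0 0 4 (3/4) (1/2) (by norm_num) (by norm_num) (by norm_num) (by norm_num) c2
  have b2' := lt_of_le_of_ne b2 (mulne _ _ (cne 2 5 0 4 (3/4) (1/2) h25 (by decide) (by decide)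
    (by norm_num) (by norm_num) (by norm_num) (by norm_num) c2.symm).symm)
  -- 02 above 13
  have c3 : (1 - 2/3 : ℝ) • proj (f 0) + (2/3 : ℝ) • proj (f 2) =
      (1 - 1/3 : ℝ) • proj (f 1) + (1/3 : ℝ) • proj (f 3) := by
    rw [q1, q3]
    ext j
    simp only [Pi.add_apply, Pi.smul_apply, Pi.sub_apply, smul_eq_mul]
    ring
  have b3 := top 1 3 2 5 (1/2) (1/4) h13 n13 (by norm_num) (by norm_num) (by norm_num)
    (by norm_num) c1.symm (-ε) (by linarith) 0 2 (1/3) (2/3) (by norm_num) (by norm_num)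
    (by norm_num) (by norm_num) c3
  have b3' : ε * ((1 - 1/3) * f 1 2 + 1/3 * f 3 2) < ε * ((1 - 2/3) * f 0 2 + 2/3 * f 2 2) := by
    refine lt_of_le_of_ne (by linarith) (mulne _ _ ?_)
    exact (cne 1 3 0 2 (1/3) (2/3) h13 (by decide) (by decide)
      (by norm_num) (by norm_num) (by norm_num) (by norm_num) c3.symm)
  -- 35 above 04
  have c4 : (1 - 2/3 : ℝ) • proj (f 3) + (2/3 : ℝ) • proj (f 5) =
      (1 - 2/3 : ℝ) • proj (f 0) + (2/3 : ℝ) • proj (f 4) := by
    rw [q4, q1, q3, q5]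
    ext j
    simp only [Pi.add_apply, Pi.smul_apply, Pi.sub_apply, smul_eq_mul]
    ring
  have b4 := top 0 4 2 5 (1/2) (3/4) h04 n04 (by norm_num) (by norm_num) (by norm_num)
    (by norm_num) c2.symm (-ε) (by linarith) 3 5 (2/3) (2/3) (by norm_num) (by norm_num)
    (by norm_num) (by norm_num) c4
  have b4' : ε * ((1 - 2/3) * f 0 2 + 2/3 * f 4 2) < ε * ((1 - 2/3) * f 3 2 + 2/3 * f 5 2) := by
    refine lt_of_le_of_ne (by linarith) (mulne _ _ ?_)
    exact (cne 0 4 3 5 (2/3) (2/3) h04 (by decide) (by decide)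
      (by norm_num) (by norm_num) (by norm_num) (by norm_num) c4.symm)
  -- the segment 15 is not above 02
  have c5 : (1 - 1/3 : ℝ) • proj (f 1) + (1/3 : ℝ) • proj (f 5) =
      (1 - 1/3 : ℝ) • proj (f 0) + (1/3 : ℝ) • proj (f 2) := by
    rw [q1, q5]
    ext j
    simp only [Pi.add_apply, Pi.smul_apply, Pi.sub_apply, smul_eq_mul]
    ring
  have b5 := top 0 2 1 3 (2/3) (1/3) h02 n02 (by norm_num) (by norm_num) (by norm_num)
    (by norm_num) c3.symm ε b3' 1 5 (1/3) (1/3) (by norm_num) (by norm_num)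
    (by norm_num) (by norm_num) c5
  -- the segment 24 is not above 35
  have c6 : (1 - 2/3 : ℝ) • proj (f 2) + (2/3 : ℝ) • proj (f 4) =
      (1 - 1/3 : ℝ) • proj (f 3) + (1/3 : ℝ) • proj (f 5) := by
    rw [q4, q1, q3, q5]
    ext j
    simp only [Pi.add_apply, Pi.smul_apply, Pi.sub_apply, smul_eq_mul]
    ring
  have b6 := top 3 5 0 4 (2/3) (2/3) h35 n35 (by norm_num) (by norm_num) (by norm_num)
    (by norm_num) c4.symm ε b4' 2 4 (1/3) (2/3) (by norm_num) (by norm_num)
    (by norm_num) (by norm_num) c6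
  -- 03 below 14 at the centre
  have c7 : (1 - 1/2 : ℝ) • proj (f 1) + (1/2 : ℝ) • proj (f 4) =
      (1 - 1/2 : ℝ) • proj (f 0) + (1/2 : ℝ) • proj (f 3) := by
    rw [q4, q1, q3]
    ext j
    simp only [Pi.add_apply, Pi.smul_apply, Pi.sub_apply, smul_eq_mul]
    ring
  have b7 := top 0 3 2 5 (1/2) (1/2) h03 n03 (by norm_num) (by norm_num) (by norm_num)
    (by norm_num) c0.symm (-ε) (by linarith) 1 4 (1/2) (1/2) (by norm_num) (by norm_num)
    (by norm_num) (by norm_num) c7
  have b7' : ε * ((1 - 1/2) * f 0 2 + 1/2 * f 3 2) < ε * ((1 - 1/2) * f 1 2 + 1/2 * f 4 2) := by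
    refine lt_of_le_of_ne (by linarith) (mulne _ _ ?_)
    exact (cne 0 3 1 4 (1/2) (1/2) h03 (by decide) (by decide)
      (by norm_num) (by norm_num) (by norm_num) (by norm_num) c7.symm)
  nlinarith [b5, b6, b7']

/-! ### The hexagon -/

section hex

variable (o a b : Fin 2 → ℝ)

/-- first affine coordinate -/
noncomputable def cX (p : Fin 2 → ℝ) : ℝ :=
  ((p 0 - o 0) * b 1 - (p 1 - o 1) * b 0) / (a 0 * b 1 - a 1 * b 0)

/-- second affine coordinate -/
noncomputable def cY (p : Fin 2 → ℝ) : ℝ :=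
  (a 0 * (p 1 - o 1) - a 1 * (p 0 - o 0)) / (a 0 * b 1 - a 1 * b 0)

lemma coord (hD : a 0 * b 1 - a 1 * b 0 ≠ 0) (p : Fin 2 → ℝ) :
    p = o + cX o a b p • a + cY o a b p • b := by
  have e : ∀ j, (cX o a b p * a j + cY o a b p * b j) =
      (((p 0 - o 0) * b 1 - (p 1 - o 1) * b 0) * a j + (a 0 * (p 1 - o 1) - a 1 * (p 0 - o 0)) * b j) /
        (a 0 * b 1 - a 1 * b 0) := by
    intro j
    simp only [cX, cY]
    ring
  ext j
  simp only [Pi.add_apply, Pi.smul_apply, smul_eq_mul, add_assoc]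
  rw [e, ← sub_eq_iff_eq_add', eq_div_iff hD]
  fin_cases j
  · simp only [Fin.zero_eta]
    ring
  · simp only [Fin.mk_one]
    ring

lemma cX_of (hD : a 0 * b 1 - a 1 * b 0 ≠ 0) (x y : ℝ) : cX o a b (o + x • a + y • b) = x := by
  simp only [cX, Pi.add_apply, Pi.smul_apply, smul_eq_mul]
  rw [div_eq_iff hD]
  ring

lemma cY_of (hD : a 0 * b 1 - a 1 * b 0 ≠ 0) (x y : ℝ) : cY o a b (o + x • a + y • b) = y := by
  simp only [cY, Pi.add_apply, Pi.smul_apply, smul_eq_mul]
  rw [div_eq_iff hD]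
  ring

/-- coordinates of the six vertices -/
def hx : Fin 6 → ℝ := ![1, 1, 0, -1, -1, 0]

/-- coordinates of the six vertices -/
def hy : Fin 6 → ℝ := ![0, 1, 1, 0, -1, -1]

lemma hv_eq (k : Fin 6) : hv o a b k = o + hx k • a + hy k • b := by
  fin_cases k <;> ext j <;> simp [hv, hx, hy] <;> ring

lemma cX_hv (hD : a 0 * b 1 - a 1 * b 0 ≠ 0) (k : Fin 6) : cX o a b (hv o a b k) = hx k := by
  rw [hv_eq, cX_of o a b hD]

lemma cY_hv (hD : a 0 * b 1 - a 1 * b 0 ≠ 0) (k : Fin 6) : cY o a b (hv o a b k) = hy k := by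
  rw [hv_eq, cY_of o a b hD]

lemma hv_inj (hD : a 0 * b 1 - a 1 * b 0 ≠ 0) : Function.Injective (hv o a b) := by
  intro k l h
  have h1 : hx k = hx l := by rw [← cX_hv o a b hD, ← cX_hv o a b hD, h]
  have h2 : hy k = hy l := by rw [← cY_hv o a b hD, ← cY_hv o a b hD, h]
  revert h1 h2
  fin_cases k <;> fin_cases l <;> simp [hx, hy] <;> norm_num

lemma mem_hexagon (p : Fin 2 → ℝ) : p ∈ hexagon o a b ↔ ∃ k, p = hv o a b k := by
  classical
  constructor
  · intro h
    simp only [hexagon, Finset.mem_insert, Finset.mem_singleton] at h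
    rcases h with h | h | h | h | h | h
    · exact ⟨0, h⟩
    · exact ⟨1, h⟩
    · exact ⟨2, h⟩
    · exact ⟨3, h⟩
    · exact ⟨4, h⟩
    · exact ⟨5, h⟩
  · rintro ⟨k, rfl⟩
    fin_cases k <;> simp [hexagon, hv]

lemma hexagon_eq : hexagon o a b = Finset.univ.image (hv o a b) := by
  ext p
  rw [mem_hexagon]
  simp [eq_comm]

lemma hexagon_card (hD : a 0 * b 1 - a 1 * b 0 ≠ 0) : (hexagon o a b).card = 6 := by
  rw [hexagon_eq, Finset.card_image_of_injective _ (hv_inj o a b hD)]
  rfl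

/-- the affine functional with its maximum over the hexagon at the vertex `k` only -/
noncomputable def Mf (k : Fin 6) (p : Fin 2 → ℝ) : ℝ :=
  (![2, 1, -1, -2, -1, 1] : Fin 6 → ℝ) k * cX o a b p +
  (![-1, 1, 2, 1, -1, -2] : Fin 6 → ℝ) k * cY o a b p

lemma Mf_self (hD : a 0 * b 1 - a 1 * b 0 ≠ 0) (k : Fin 6) : Mf o a b k (hv o a b k) = 2 := by
  rw [Mf, cX_hv o a b hD, cY_hv o a b hD]
  fin_cases k <;> simp [hx, hy] <;> norm_num

lemma Mf_other (hD : a 0 * b 1 - a 1 * b 0 ≠ 0) (k l : Fin 6) (h : l ≠ k) :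
    Mf o a b k (hv o a b l) ≤ 1 := by
  rw [Mf, cX_hv o a b hD, cY_hv o a b hD]
  revert h
  fin_cases k <;> fin_cases l <;> simp [hx, hy] <;> norm_num

lemma cX_comb (s t : ℝ) (h : s + t = 1) (x y : Fin 2 → ℝ) :
    cX o a b (s • x + t • y) = s * cX o a b x + t * cX o a b y := by
  simp only [cX, Pi.add_apply, Pi.smul_apply, smul_eq_mul]
  rw [← mul_div_assoc, ← mul_div_assoc, ← add_div]
  congr 1
  have hs : s = 1 - t := by linarith
  rw [hs]
  ring

lemma cY_comb (s t : ℝ) (h : s + t = 1) (x y : Fin 2 → ℝ) :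
    cY o a b (s • x + t • y) = s * cY o a b x + t * cY o a b y := by
  simp only [cY, Pi.add_apply, Pi.smul_apply, smul_eq_mul]
  rw [← mul_div_assoc, ← mul_div_assoc, ← add_div]
  congr 1
  have hs : s = 1 - t := by linarith
  rw [hs]
  ring

lemma Mf_convex (k : Fin 6) (c : ℝ) : Convex ℝ {p | Mf o a b k p ≤ c} := by
  intro x hx y hy s t hs ht hst
  simp only [Set.mem_ofPred_eq, Mf] at hx hy ⊢
  rw [cX_comb o a b s t hst, cY_comb o a b s t hst]
  have h1 := mul_le_mul_of_nonneg_left hx hs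
  have h2 := mul_le_mul_of_nonneg_left hy ht
  have h3 : s * c + t * c = c := by rw [← add_mul, hst, one_mul]
  linarith

lemma hexagon_convexPolygon (hD : a 0 * b 1 - a 1 * b 0 ≠ 0) :
    ConvexPolygon 6 (hexagon o a b) := by
  refine ⟨hexagon_card o a b hD, ?_⟩
  intro t ht hmem
  obtain ⟨k, rfl⟩ := (mem_hexagon o a b t).1 ht
  have hsub : convexHull ℝ ((hexagon o a b : Set (Fin 2 → ℝ)) \ {hv o a b k}) ⊆
      {p | Mf o a b k p ≤ 1} := by
    apply convexHull_min _ (Mf_convex o a b k 1)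
    rintro p ⟨hp1, hp2⟩
    obtain ⟨l, rfl⟩ := (mem_hexagon o a b p).1 hp1
    apply Mf_other o a b hD
    rintro rfl
    exact hp2 rfl
  have h1 := hsub hmem
  simp only [Set.mem_ofPred_eq] at h1
  rw [Mf_self o a b hD] at h1
  norm_num at h1

lemma hv_mem (k : Fin 6) : hv o a b k ∈ convexHull ℝ (hexagon o a b : Set (Fin 2 → ℝ)) :=
  subset_convexHull ℝ _ ((mem_hexagon o a b _).2 ⟨k, rfl⟩)

lemma hv_extreme (hD : a 0 * b 1 - a 1 * b 0 ≠ 0) (k : Fin 6) :
    hv o a b k ∈ Set.extremePoints ℝ (convexHull ℝ (hexagon o a b : Set (Fin 2 → ℝ))) := by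
  by_contra hne
  have hcomp : IsCompact (convexHull ℝ (hexagon o a b : Set (Fin 2 → ℝ))) :=
    (Finset.finite_toSet _).isCompact_convexHull ℝ
  have hKM := closure_convexHull_extremePoints hcomp (convex_convexHull ℝ _)
  have hcont : Continuous (Mf o a b k) := by
    unfold Mf cX cY
    fun_prop
  have hcl : IsClosed {p | Mf o a b k p ≤ 1} := isClosed_le hcont continuous_const
  have hsub : closure (convexHull ℝ
      ((convexHull ℝ (hexagon o a b : Set (Fin 2 → ℝ))).extremePoints ℝ)) ⊆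
      {p | Mf o a b k p ≤ 1} := by
    apply closure_minimal _ hcl
    apply convexHull_min _ (Mf_convex o a b k 1)
    intro p hp
    obtain ⟨l, rfl⟩ := (mem_hexagon o a b p).1 (extremePoints_convexHull_subset hp)
    apply Mf_other o a b hD
    rintro rfl
    exact hne hp
  rw [hKM] at hsub
  have h1 : Mf o a b k (hv o a b k) ≤ 1 := hsub (hv_mem o a b k)
  rw [Mf_self o a b hD] at h1
  norm_num at h1

lemma centre_mem : o ∈ convexHull ℝ (hexagon o a b : Set (Fin 2 → ℝ)) := by
  have h := (convex_convexHull ℝ (hexagon o a b : Set (Fin 2 → ℝ))) (hv_mem o a b 0)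
    (hv_mem o a b 3) (show (0:ℝ) ≤ 1/2 by norm_num) (show (0:ℝ) ≤ 1/2 by norm_num) (by norm_num)
  have e : (1/2 : ℝ) • hv o a b 0 + (1/2 : ℝ) • hv o a b 3 = o := by
    ext j
    simp [hv]
    ring
  rwa [e] at h

lemma two_mem (k l : Fin 6) (s t : ℝ) (hs : 0 ≤ s) (ht : 0 ≤ t) (hst : s + t ≤ 1) :
    o + s • (hv o a b k - o) + t • (hv o a b l - o) ∈
      convexHull ℝ (hexagon o a b : Set (Fin 2 → ℝ)) := by
  have hC := convex_convexHull ℝ (hexagon o a b : Set (Fin 2 → ℝ))
  rcases eq_or_lt_of_le (add_nonneg hs ht) with h0 | h0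
  · have hs' : s = 0 := by linarith
    have ht' : t = 0 := by linarith
    rw [hs', ht']
    simpa using centre_mem o a b
  · have h1 := hC (hv_mem o a b k) (hv_mem o a b l) (div_nonneg hs h0.le) (div_nonneg ht h0.le)
      (by rw [← add_div, div_self h0.ne'])
    have h2 := hC (centre_mem o a b) h1 (show 0 ≤ 1 - (s + t) by linarith) h0.le (by ring)
    have e : (1 - (s + t)) • o + (s + t) • ((s / (s + t)) • hv o a b k + (t / (s + t)) • hv o a b l)
        = o + s • (hv o a b k - o) + t • (hv o a b l - o) := by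
      rw [smul_add, smul_smul, smul_smul, mul_div_cancel₀ _ h0.ne', mul_div_cancel₀ _ h0.ne']
      ext j
      simp only [Pi.add_apply, Pi.smul_apply, Pi.sub_apply, smul_eq_mul]
      ring
    rwa [e] at h2

/-- the open hexagon -/
def openHex : Set (Fin 2 → ℝ) :=
  {p | |cX o a b p| < 1 ∧ |cY o a b p| < 1 ∧ |cX o a b p - cY o a b p| < 1}

lemma openHex_open : IsOpen (openHex o a b) := by
  have hX : Continuous (cX o a b) := by
    unfold cX
    fun_prop
  have hY : Continuous (cY o a b) := by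
    unfold cY
    fun_prop
  exact (isOpen_lt hX.abs continuous_const).and
    ((isOpen_lt hY.abs continuous_const).and (isOpen_lt (hX.sub hY).abs continuous_const))

lemma openHex_sub (hD : a 0 * b 1 - a 1 * b 0 ≠ 0) :
    openHex o a b ⊆ convexHull ℝ (hexagon o a b : Set (Fin 2 → ℝ)) := by
  rintro p ⟨h1, h2, h3⟩
  have hp := coord o a b hD p
  set x := cX o a b p
  set y := cY o a b p
  rw [abs_lt] at h1 h2 h3
  have fin : ∀ (k l : Fin 6) (s t : ℝ), 0 ≤ s → 0 ≤ t → s + t ≤ 1 →
      p = o + s • (hv o a b k - o) + t • (hv o a b l - o) →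
      p ∈ convexHull ℝ (hexagon o a b : Set (Fin 2 → ℝ)) := by
    intro k l s t hs ht hst he
    rw [he]
    exact two_mem o a b k l s t hs ht hst
  rcases le_total 0 x with hx0 | hx0 <;> rcases le_total 0 y with hy0 | hy0
  · rcases le_total x y with hxy | hxy
    · refine fin 2 1 (y - x) x (by linarith) (by linarith) (by linarith) ?_
      rw [hp]
      ext j
      simp [hv]
      ring
    · refine fin 0 1 (x - y) y (by linarith) (by linarith) (by linarith) ?_
      rw [hp]
      ext j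
      simp [hv]
      ring
  · refine fin 5 0 (-y) x (by linarith) (by linarith) (by linarith) ?_
    rw [hp]
    ext j
    simp [hv]
    ring
  · refine fin 2 3 y (-x) (by linarith) (by linarith) (by linarith) ?_
    rw [hp]
    ext j
    simp [hv]
    ring
  · rcases le_total x y with hxy | hxy
    · refine fin 3 4 (y - x) (-y) (by linarith) (by linarith) (by linarith) ?_
      rw [hp]
      ext j
      simp [hv]
      ring
    · refine fin 5 4 (x - y) (-x) (by linarith) (by linarith) (by linarith) ?_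
      rw [hp]
      ext j
      simp [hv]
      ring

/-- adjacency of indices -/
def nxt (k l : Fin 6) : Bool := l = k + 1 || k = l + 1

lemma mid_interior (hD : a 0 * b 1 - a 1 * b 0 ≠ 0) (k l : Fin 6) (hkl : k ≠ l)
    (h : nxt k l = false) :
    (1/2 : ℝ) • hv o a b k + (1/2 : ℝ) • hv o a b l ∈
      interior (convexHull ℝ (hexagon o a b : Set (Fin 2 → ℝ))) := by
  apply interior_maximal (openHex_sub o a b hD) (openHex_open o a b)
  simp only [openHex, Set.mem_ofPred_eq]
  rw [cX_comb o a b _ _ (by norm_num), cY_comb o a b _ _ (by norm_num), cX_hv o a b hD,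
    cX_hv o a b hD, cY_hv o a b hD, cY_hv o a b hD]
  revert hkl h
  fin_cases k <;> fin_cases l <;> simp [nxt, hx, hy] <;> norm_num [abs_lt]

end hex

/-! ### The conclusion -/

lemma hv_notMem_interior (o a b : Fin 2 → ℝ) (hD : a 0 * b 1 - a 1 * b 0 ≠ 0) (k : Fin 6) :
    hv o a b k ∉ interior (convexHull ℝ (hexagon o a b : Set (Fin 2 → ℝ))) := by
  intro h
  have hcont : Continuous (fun s : ℝ => hv o a b k + s • (hv o a b k - o)) := by fun_prop
  have h0 : (fun s : ℝ => hv o a b k + s • (hv o a b k - o)) 0 ∈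
      interior (convexHull ℝ (hexagon o a b : Set (Fin 2 → ℝ))) := by simpa using h
  have hnhds := hcont.continuousAt.preimage_mem_nhds (isOpen_interior.mem_nhds h0)
  obtain ⟨r, hr, hball⟩ := Metric.mem_nhds_iff.1 hnhds
  have hr2 : (r / 2 : ℝ) ∈ Metric.ball (0 : ℝ) r := by
    rw [Metric.mem_ball, Real.dist_eq, sub_zero, abs_of_pos (by linarith)]
    linarith
  have h1 : hv o a b k + (r / 2) • (hv o a b k - o) ∈
      convexHull ℝ (hexagon o a b : Set (Fin 2 → ℝ)) := interior_subset (hball hr2)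
  have hle : convexHull ℝ (hexagon o a b : Set (Fin 2 → ℝ)) ⊆ {p | Mf o a b k p ≤ 2} := by
    apply convexHull_min _ (Mf_convex o a b k 2)
    intro p hp
    obtain ⟨l, rfl⟩ := (mem_hexagon o a b p).1 hp
    by_cases hl : l = k
    · rw [hl]
      exact (Mf_self o a b hD k).le
    · have := Mf_other o a b hD k l hl
      rw [Set.mem_ofPred_eq]
      linarith
  have h2 := hle h1
  rw [Set.mem_ofPred_eq, hv_eq] at h2
  have e : o + hx k • a + hy k • b + (r / 2) • (o + hx k • a + hy k • b - o) =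
      o + ((1 + r / 2) * hx k) • a + ((1 + r / 2) * hy k) • b := by
    ext j
    simp only [Pi.add_apply, Pi.smul_apply, Pi.sub_apply, smul_eq_mul]
    ring
  rw [e, Mf, cX_of o a b hD, cY_of o a b hD] at h2
  have h3 := Mf_self o a b hD k
  rw [hv_eq, Mf, cX_of o a b hD, cY_of o a b hD] at h3
  have h4 : (1 + r / 2) * 2 ≤ 2 := by
    calc (1 + r / 2) * 2 = (1 + r / 2) * ((![2, 1, -1, -2, -1, 1] : Fin 6 → ℝ) k * hx k +
          (![-1, 1, 2, 1, -1, -2] : Fin 6 → ℝ) k * hy k) := by rw [h3]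
      _ = (![2, 1, -1, -2, -1, 1] : Fin 6 → ℝ) k * ((1 + r / 2) * hx k) +
          (![-1, 1, 2, 1, -1, -2] : Fin 6 → ℝ) k * ((1 + r / 2) * hy k) := by ring
      _ ≤ 2 := h2
  linarith

/-- the vertices of the circuit -/
def cv : Fin 6 → Fin 8 := ![0, 1, 2, 3, 4, 5]

lemma dart_iff (f : Fin 8 → Fin 3 → ℝ) (x : Fin 3 → ℝ) :
    x ∈ ⋃ d ∈ circ.darts, segment ℝ (f d.fst) (f d.snd) ↔
      ∃ i : Fin 6, x ∈ segment ℝ (f (cv i)) (f (cv (i + 1))) := by
  simp only [circ, SimpleGraph.Walk.darts_cons, SimpleGraph.Walk.darts_nil, List.mem_cons,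
    List.not_mem_nil, or_false, mem_iUnion, exists_prop, exists_eq_or_imp, exists_eq_left]
  constructor
  · rintro (h | h | h | h | h | h)
    · exact ⟨0, h⟩
    · exact ⟨1, h⟩
    · exact ⟨2, h⟩
    · exact ⟨3, h⟩
    · exact ⟨4, h⟩
    · exact ⟨5, h⟩
  · rintro ⟨i, h⟩
    fin_cases i
    · exact Or.inl h
    · exact Or.inr (Or.inl h)
    · exact Or.inr (Or.inr (Or.inl h))
    · exact Or.inr (Or.inr (Or.inr (Or.inl h)))
    · exact Or.inr (Or.inr (Or.inr (Or.inr (Or.inl h))))
    · exact Or.inr (Or.inr (Or.inr (Or.inr (Or.inr h))))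

lemma nxt_up : ∀ x y z : Fin 6, nxt y z = true → x ≠ z → y = x + 1 → z = y + 1 := by decide

lemma nxt_down : ∀ x y z : Fin 6, nxt y z = true → x ≠ z → y = x + 5 → z = y + 5 := by decide

lemma nxt_first : ∀ x y : Fin 6, nxt x y = true → y = x + 1 ∨ y = x + 5 := by decide

lemma hv_three (o a b : Fin 2 → ℝ) (k : Fin 6) : hv o a b (k + 3) = (2 : ℝ) • o - hv o a b k := by
  fin_cases k <;> ext j <;> simp [hv] <;> ring

lemma hv_mid (o a b : Fin 2 → ℝ) (k : Fin 6) :
    hv o a b (k + 1) = hv o a b k + hv o a b (k + 2) - o := by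
  fin_cases k <;> ext j <;> simp [hv] <;> ring

theorem no_realization (o a b : Fin 2 → ℝ) (hD : a 0 * b 1 - a 1 * b 0 ≠ 0)
    (f : Fin 8 → Fin 3 → ℝ) (hR : Realizes Gr f) (hO : Outline circ (hexagon o a b) f) : False := by
  obtain ⟨hinj, -, hext, hadj⟩ := hR
  obtain ⟨hO1, hO2⟩ := hO
  set P := convexHull ℝ (range f) with hP
  set F := convexHull ℝ (hexagon o a b : Set (Fin 2 → ℝ)) with hF
  have hFcl : IsClosed F := ((Finset.finite_toSet _).isCompact_convexHull ℝ).isClosed
  have hfr : ∀ k, hv o a b k ∈ frontier F := by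
    intro k
    rw [hFcl.frontier_eq]
    exact ⟨hv_mem o a b k, hv_notMem_interior o a b hD k⟩
  have hseg : ∀ (i : Fin 6) (x : Fin 3 → ℝ), x ∈ segment ℝ (f (cv i)) (f (cv (i + 1))) →
      proj x ∈ frontier F := by
    intro i x hx
    have : x ∈ proj ⁻¹' frontier F ∩ P := by
      rw [hO2, dart_iff]
      exact ⟨i, hx⟩
    exact this.1
  have hPF : ∀ x ∈ P, proj x ∈ F := by
    intro x hx
    rw [← hO1]
    exact ⟨x, hx, rfl⟩
  have hfP : ∀ i, f i ∈ P := fun i => (hext i).1
  -- every vertex of the hexagon is the image of a vertex of the circuit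
  have h1 : ∀ k, ∃ i : Fin 6, proj (f (cv i)) = hv o a b k := by
    intro k
    have hk : hv o a b k ∈ proj '' P := by
      rw [hO1]
      exact hv_mem o a b k
    obtain ⟨x, hx, hxk⟩ := hk
    have hx2 : x ∈ proj ⁻¹' frontier F ∩ P := ⟨by rw [mem_preimage, hxk]; exact hfr k, hx⟩
    rw [hO2, dart_iff] at hx2
    obtain ⟨i, c, d, hc, hd, hcd, he⟩ := hx2
    have h2 : hv o a b k ∈ segment ℝ (proj (f (cv i))) (proj (f (cv (i + 1)))) := by
      refine ⟨c, d, hc, hd, hcd, ?_⟩
      rw [← hxk, ← he, proj_comb]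
    rcases (mem_extremePoints_iff_forall_segment.1 (hv_extreme o a b hD k)).2 _
      (hPF _ (hfP _)) _ (hPF _ (hfP _)) h2 with h3 | h3
    · exact ⟨i, h3⟩
    · exact ⟨i + 1, h3⟩
  choose τ hτ using h1
  have hτinj : Function.Injective τ := by
    intro k l hkl
    apply hv_inj o a b hD
    rw [← hτ k, ← hτ l, hkl]
  have hτsurj : Function.Surjective τ := Finite.surjective_of_injective hτinj
  choose σ hσ using hτsurj
  have hq : ∀ i, proj (f (cv i)) = hv o a b (σ i) := by
    intro i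
    rw [← hτ (σ i), hσ i]
  have hσinj : Function.Injective σ := by
    intro i j h
    rw [← hσ i, ← hσ j, h]
  -- consecutive vertices go to consecutive vertices
  have hnx : ∀ i, nxt (σ i) (σ (i + 1)) = true := by
    intro i
    by_contra hcon
    have hne : σ i ≠ σ (i + 1) := by
      intro h
      have := hσinj h
      revert this
      fin_cases i <;> decide
    have hm := mid_interior o a b hD (σ i) (σ (i + 1)) hne (by simpa using hcon)
    have hx := hseg i ((1/2 : ℝ) • f (cv i) + (1/2 : ℝ) • f (cv (i + 1)))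
      ⟨1/2, 1/2, by norm_num, by norm_num, by norm_num, rfl⟩
    rw [proj_comb, hq, hq, hFcl.frontier_eq] at hx
    exact hx.2 hm
  have hn0 := hnx 0
  have hn1 := hnx 1
  have hn2 := hnx 2
  have hn3 := hnx 3
  have hn4 := hnx 4
  have d02 : σ 0 ≠ σ 2 := fun h => absurd (hσinj h) (by decide)
  have d13 : σ 1 ≠ σ 3 := fun h => absurd (hσinj h) (by decide)
  have d24 : σ 2 ≠ σ 4 := fun h => absurd (hσinj h) (by decide)
  have d35 : σ 3 ≠ σ 5 := fun h => absurd (hσinj h) (by decide)
  have key : proj (f 3) = (2 : ℝ) • o - proj (f 0) ∧ proj (f 4) = (2 : ℝ) • o - proj (f 1) ∧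
      proj (f 5) = (2 : ℝ) • o - proj (f 2) ∧
      proj (f 1) = proj (f 0) + proj (f 2) - o := by
    have g0 : proj (f 0) = hv o a b (σ 0) := hq 0
    have g1 : proj (f 1) = hv o a b (σ 1) := hq 1
    have g2 : proj (f 2) = hv o a b (σ 2) := hq 2
    have g3 : proj (f 3) = hv o a b (σ 3) := hq 3
    have g4 : proj (f 4) = hv o a b (σ 4) := hq 4
    have g5 : proj (f 5) = hv o a b (σ 5) := hq 5
    rw [g0, g1, g2, g3, g4, g5]
    rcases nxt_first _ _ hn0 with e1 | e1
    · have e2 := nxt_up _ _ _ hn1 d02 e1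
      have e3 := nxt_up _ _ _ hn2 d13 e2
      have e4 := nxt_up _ _ _ hn3 d24 e3
      have e5 := nxt_up _ _ _ hn4 d35 e4
      have f1 : σ 1 = σ 0 + 1 := e1
      have f2 : σ 2 = σ 0 + 2 := by
        change σ (1 + 1) = _
        rw [e2]
        change σ 1 + 1 = _
        rw [f1, add_assoc]; rfl
      have f3 : σ 3 = σ 0 + 3 := by
        change σ (2 + 1) = _
        rw [e3]
        change σ 2 + 1 = _
        rw [f2, add_assoc]; rfl
      have f4 : σ 4 = σ 0 + 4 := by
        change σ (3 + 1) = _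
        rw [e4]
        change σ 3 + 1 = _
        rw [f3, add_assoc]; rfl
      have f5 : σ 5 = σ 0 + 5 := by
        change σ (4 + 1) = _
        rw [e5]
        change σ 4 + 1 = _
        rw [f4, add_assoc]; rfl
      have t4 : ∀ k : Fin 6, k + 4 = (k + 1) + 3 := by decide
      have t5 : ∀ k : Fin 6, k + 5 = (k + 2) + 3 := by decide
      refine ⟨?_, ?_, ?_, ?_⟩
      · rw [f3, hv_three]
      · rw [f4, f1, t4, hv_three]
      · rw [f5, f2, t5, hv_three]
      · rw [f1, f2, hv_mid]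
    · have e2 := nxt_down _ _ _ hn1 d02 e1
      have e3 := nxt_down _ _ _ hn2 d13 e2
      have e4 := nxt_down _ _ _ hn3 d24 e3
      have e5 := nxt_down _ _ _ hn4 d35 e4
      have f1 : σ 1 = σ 0 + 5 := e1
      have f2 : σ 2 = σ 0 + 4 := by
        change σ (1 + 1) = _
        rw [e2]
        change σ 1 + 5 = _
        rw [f1, add_assoc]; rfl
      have f3 : σ 3 = σ 0 + 3 := by
        change σ (2 + 1) = _
        rw [e3]
        change σ 2 + 5 = _
        rw [f2, add_assoc]; rfl
      have f4 : σ 4 = σ 0 + 2 := by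
        change σ (3 + 1) = _
        rw [e4]
        change σ 3 + 5 = _
        rw [f3, add_assoc]; rfl
      have f5 : σ 5 = σ 0 + 1 := by
        change σ (4 + 1) = _
        rw [e5]
        change σ 4 + 5 = _
        rw [f4, add_assoc]; rfl
      have t3 : ∀ k : Fin 6, k + 2 = (k + 5) + 3 := by decide
      have t4 : ∀ k : Fin 6, k + 1 = (k + 4) + 3 := by decide
      have t5 : ∀ k : Fin 6, k + 5 = (k + 4) + 1 := by decide
      have t6 : ∀ k : Fin 6, k = (k + 4) + 2 := by decide
      refine ⟨?_, ?_, ?_, ?_⟩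
      · rw [f3, hv_three]
      · rw [f4, f1, t3, hv_three]
      · rw [f5, f2, t4, hv_three]
      · rw [f1, f2, t5, hv_mid, ← t6]
        abel
  obtain ⟨q3, q4, q5, q1⟩ := key
  have hne : ∀ i j : Fin 6, i ≠ j → proj (f (cv i)) ≠ proj (f (cv j)) := by
    intro i j hij h
    rw [hq, hq] at h
    exact hij (hσinj (hv_inj o a b hD h))
  have n02 : proj (f 0) ≠ proj (f 2) := hne 0 2 (by decide)
  have n25 : proj (f 2) ≠ proj (f 5) := hne 2 5 (by decide)
  have n35 : proj (f 3) ≠ proj (f 5) := hne 3 5 (by decide)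
  have n13 : proj (f 1) ≠ proj (f 3) := hne 1 3 (by decide)
  have n03 : proj (f 0) ≠ proj (f 3) := hne 0 3 (by decide)
  have n04 : proj (f 0) ≠ proj (f 4) := hne 0 4 (by decide)
  have h02 := ((hadj 0 2).1 (by decide)).2
  have h25 := ((hadj 2 5).1 (by decide)).2
  have h35 := ((hadj 3 5).1 (by decide)).2
  have h13 := ((hadj 1 3).1 (by decide)).2
  have h03 := ((hadj 0 3).1 (by decide)).2
  have h04 := ((hadj 0 4).1 (by decide)).2
  have hne0 : (1 - 1/2 : ℝ) * f 2 2 + 1/2 * f 5 2 ≠ (1 - 1/2 : ℝ) * f 0 2 + 1/2 * f 3 2 := by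
    refine cross_ne h25 (hfP 2) (hfP 5) (hext 0) (hfP 3) (fun h => absurd (hinj h) (by decide))
      (fun h => absurd (hinj h) (by decide)) (by norm_num) (by norm_num) (by norm_num)
      (by norm_num) ?_
    rw [q3, q5]
    ext j
    simp only [Pi.add_apply, Pi.smul_apply, Pi.sub_apply, smul_eq_mul]
    ring
  have hconv : Convex ℝ P := convex_convexHull ℝ _
  rcases lt_or_gt_of_ne hne0 with h | h
  · exact core P hconv f hinj hext h02 h25 h35 h13 h03 h04 o q3 q4 q5 q1 n02 n25 n35 n13 n03 n04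
      (-1) (by linarith)
  · exact core P hconv f hinj hext h02 h25 h35 h13 h03 h04 o q3 q4 q5 q1 n02 n25 n35 n13 n03 n04
      1 (by linarith)

end Pool.Agent.Y758.Shadow
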